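import Pool.Agent.helper83.LE.SpecB

set_option autoImplicit false

namespace Pool.Agent.LE

open Pool.Agent.helper58.DC Pool.Agent.DI Pool.Agent.GR Pool.Agent.OB Pool.Agent.DR Pool.Agent.FI Pool.Agent.FI3 Pool.Agent.FI4 Pool.Agent.FI4C

/-- the characters which are trivial on `C` are the characters of `D ⧸ C` -/
theorem PER : PER_stmt := by
  intro D _ _ C
  constructor
  · have e : {w : D →* ℂˣ // ∀ u ∈ C, w u = 1} ≃ ((D ⧸ C) →* ℂˣ) :=
      { toFun := fun w => QuotientGroup.lift C w.1 fun u hu => w.2 u hu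
        invFun := fun l => ⟨l.comp (QuotientGroup.mk' C), fun u hu => by
          have h : QuotientGroup.mk' C u = 1 := (QuotientGroup.eq_one_iff u).2 hu
          rw [MonoidHom.comp_apply, h, map_one]⟩
        left_inv := fun w => Subtype.ext (MonoidHom.ext fun u => rfl)
        right_inv := fun l => by
          refine MonoidHom.ext fun x => ?_
          obtain ⟨u, rfl⟩ := QuotientGroup.mk_surjective x
          rfl }
    rw [Nat.card_congr e, CommGroup.card_monoidHom_of_hasEnoughRootsOfUnity]
    rfl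
  · intro u hu
    have h : (QuotientGroup.mk' C u : D ⧸ C) ≠ 1 := fun h => hu ((QuotientGroup.eq_one_iff u).1 h)
    obtain ⟨l, hl⟩ := CommGroup.exists_apply_ne_one_of_hasEnoughRootsOfUnity (D ⧸ C) ℂ h
    refine ⟨l.comp (QuotientGroup.mk' C), fun v hv => ?_, hl⟩
    have h : QuotientGroup.mk' C v = 1 := (QuotientGroup.eq_one_iff v).2 hv
    rw [MonoidHom.comp_apply, h, map_one]

end Pool.Agent.LE
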